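import Pool.Agent.H27.L1.H34.GA.Targets1

/-!
Board gb (hybrid fourth moment, MP_52e316_nt), analytic half: the approximate functional equation with
sharp dependence on the component at infinity.
-/

namespace Pool.Agent.H27.L1.H23.GB

open MeasureTheory Pool.Agent.H27.L1.H34.GM Pool.Agent.H27.L1.H34.GZ Pool.Agent.H27.L1.H34.GU Pool.Agent.H27.L1.H34.GA

/-- truncated Dirichlet series -/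
noncomputable def SX (lam : ℕ → ℂ) (X : ℕ) (s : ℂ) : ℂ :=
  ∑ n ∈ Finset.Icc 1 X, lam n * (n : ℂ) ^ (-s)

/-- rapidly decreasing kernels -/
structure Krn (k : ℝ → ℝ) : Prop where
  cont : Continuous k
  nn : ∀ τ, 0 ≤ k τ
  dec : ∀ K : ℕ, ∃ C : ℝ, 0 < C ∧ ∀ τ, k τ ≤ C * (1 + |τ|) ^ (-(K : ℝ))

/-- the approximate functional equation, no forms -/
def T_AFH : Prop := ∀ m : ℕ, 1 ≤ m → ∀ r0 B ε : ℝ, 1 ≤ r0 → 0 < B → 0 < ε →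
  ∃ (k : ℝ → ℝ) (K : ℕ) (C : ℝ), Krn k ∧ 0 < C ∧
  ∀ (N d M : ℝ) (lam : ℕ → ℂ) (ψ ψ' : ℝ → ℂ), 1 ≤ N → 0 < d → d ≤ 1 / 2 → 0 ≤ M →
  ContinuousOn ψ (Set.Ioi 0) → ContinuousOn ψ' (Set.Ioi 0) →
  (∀ r : ℝ, 0 < r → ψ r ≠ 0 → r0⁻¹ ≤ r ∧ r ≤ r0) →
  (∀ r : ℝ, 0 < r → ‖ψ' r‖ ≤ M * min 1 ((r / d) ^ K)) →
  (∀ n : ℕ, 1 ≤ n → ‖(n : ℂ) ^ (((m : ℂ) - 1) / 2) * lam n‖ ≤ B * (n : ℝ) ^ m) →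
  (∀ r : ℝ, 0 < r → thA m ψ lam r = ((r ^ (m ^ 2) * N ^ (-((m : ℝ) / 2)) : ℝ) : ℂ) *
    (starRingEnd ℂ) (thA m ψ' lam (N ^ (1 / (m : ℝ)) / r))) →
  (∀ t : ℝ, ‖MelA m ψ (1 / 2 + t * Complex.I)‖ ≤ M) →
  (∀ t : ℝ, ‖MelA m ψ' (1 / 2 + t * Complex.I)‖ ≤ M) →
  ∀ X : ℕ, C * (N * d⁻¹ ^ m) ^ (1 / 2 : ℝ) * (N / d) ^ ε ≤ X → ∀ t : ℝ,
    ‖LmA m ψ lam (1 / 2 + t * Complex.I)‖ ≤ C * M * (N / d) ^ ε *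
      (1 + ∫ τ : ℝ, k τ * ‖SX lam X (1 / 2 + ((t + τ : ℝ) : ℂ) * Complex.I)‖)

/-- the Mellin transforms of the two weights have the same absolute value on the critical line -/
def T_ZPE : Prop := ∀ (m : ℕ) (N B r0 : ℝ) (lam : ℕ → ℂ) (ψ ψ' : ℝ → ℂ) (L : ℂ → ℂ), 1 ≤ m →
  1 ≤ N → 1 ≤ r0 →
  ContinuousOn ψ (Set.Ioi 0) → ContinuousOn ψ' (Set.Ioi 0) →
  (∀ r : ℝ, 0 < r → ψ r ≠ 0 → r0⁻¹ ≤ r ∧ r ≤ r0) →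
  (∀ K : ℕ, ∃ C : ℝ, ∀ r : ℝ, 0 < r → ‖ψ' r‖ ≤ C * min 1 (r ^ K)) →
  (∀ n : ℕ, 1 ≤ n → ‖(n : ℂ) ^ (((m : ℂ) - 1) / 2) * lam n‖ ≤ B * (n : ℝ) ^ m) →
  (∀ r : ℝ, 0 < r → thA m ψ lam r = ((r ^ (m ^ 2) * N ^ (-((m : ℝ) / 2)) : ℝ) : ℂ) *
    (starRingEnd ℂ) (thA m ψ' lam (N ^ (1 / (m : ℝ)) / r))) →
  IsL m 1 lam L → (∀ s : ℂ, LmA m ψ lam s = L s * MelA m ψ s) → (∃ s : ℂ, L s ≠ 0) →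
  ∀ t : ℝ, ‖MelA m ψ' (1 / 2 + t * Complex.I)‖ = ‖MelA m ψ (1 / 2 + t * Complex.I)‖

/-- size of the eigenvalues, uniformly -/
def T_LMB : Prop := ∀ m : ℕ, 1 ≤ m → ∃ B : ℝ, 0 < B ∧ ∀ (N : ℕ) [NeZero N]
  (T : ℕ → Finset (ZM m)) (D : Set (V m)), SysZ m N T D → ∀ (F : Mat m → VN m N → ℂ)
  (lam : ℕ → ℂ), HecA m N T F lam → NZ F → ∀ n : ℕ, 1 ≤ n →
    ‖(n : ℂ) ^ (((m : ℂ) - 1) / 2) * lam n‖ ≤ B * (n : ℝ) ^ m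

/-- lower bound of the zeta integral of the bump function, with the sharp exponent -/
def T_ZLS : Prop := ∀ (m : ℕ) (χ : ℝ → ℝ), 1 ≤ m → Prof χ → ∃ c0 c : ℝ, 0 < c0 ∧
  0 < c ∧ ∀ (f : Mat m → ℂ) (M b : ℝ), Cof m f M → 0 < b → ∀ (s : ℂ) (δ : ℝ), 0 < δ →
  δ ≤ 1 / 2 → δ * (1 + ‖s‖) ≤ c0 →
  (∀ z : Mat m, sz (z - 1) ≤ δ → ‖f z - b‖ ≤ b / 4) →
    c * b * δ ^ (m * m) ≤ ‖ZA (bi m χ δ) f s‖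

/-- sharp bounds for the weights -/
def T_ZPB : Prop := ∀ (m : ℕ) (χ : ℝ → ℝ) (K : ℕ), 1 ≤ m → Prof χ → ∃ C : ℝ, 1 ≤ C ∧
  ∀ δ : ℝ, 0 < δ → δ ≤ 1 / 2 → ∀ f : Mat m → ℂ, Cof m f 1 →
    (∀ r : ℝ, 0 < r → ‖uu (Pool.Agent.H27.L1.H34.GA.cf (dD^[m] (bi m χ δ))) f r‖ ≤
      C * min 1 ((r / δ) ^ K)) ∧
    (∀ t : ℝ, ‖ZA (dD^[m] (bi m χ δ)) f (1 / 2 + t * Complex.I)‖ ≤ C) ∧
    ∀ r : ℝ, 0 < r → uu (dD^[m] (bi m χ δ)) f r ≠ 0 → C⁻¹ ≤ r ∧ r ≤ C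

/-- the functional equation, with values in the complex numbers -/
def T_FEC : Prop := ∀ (m N : ℕ) [NeZero N] (T : ℕ → Finset (ZM m)) (D : Set (V m)),
  SysZ m N T D → ∀ (H : VN m N → ZM m) (xv : VN m N → VN m N), Frk m N H xv →
  ∀ (F : Mat m → VN m N → ℂ) (lam : ℕ → ℂ), CusB m N T F lam → NZ F →
  ∀ Φ : Mat m → ℂ, TgS m Φ → Adm F (Pool.Agent.H27.L1.H34.GA.cf Φ) → ∀ r : ℝ, 0 < r →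
    thA m (uu Φ (c1 D F)) lam r = ((r ^ (m ^ 2) * (N : ℝ) ^ (-((m : ℝ) / 2)) : ℝ) : ℂ) *
      (starRingEnd ℂ) (thA m (uu (Pool.Agent.H27.L1.H34.GA.cf Φ) (c2 D H xv F)) lam
        ((N : ℝ) ^ (1 / (m : ℝ)) / r))

/-- the analytic half: one value on the critical line against short sums, sharp at infinity -/
def T_HYA : Prop := ∀ m : ℕ, 1 ≤ m → ∀ ε : ℝ, 0 < ε → ∃ (k : ℝ → ℝ) (C : ℝ), Krn k ∧ 0 < C ∧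
  ∀ (N : ℕ) [NeZero N] (T : ℕ → Finset (ZM m)) (D : Set (V m)), SysZ m N T D →
  ∀ (F : Mat m → VN m N → ℂ) (lam : ℕ → ℂ) (mu : Fin m → ℂ) (P : ℝ), CusA m N T F lam mu →
  nU D F = 1 → Lip D F P → 1 ≤ P → ∀ L : ℂ → ℂ, IsL m 1 lam L → ∀ t : ℝ, |t| ≤ P →
  ∀ X : ℕ, C * ((N : ℝ) * P ^ m) ^ (1 / 2 : ℝ) * (N * P) ^ ε ≤ X →
    ‖L (1 / 2 + t * Complex.I)‖ *
      ∏ i : Fin m, ∏ j, (‖(1 / 2 + t * Complex.I : ℂ) - ((i : ℕ) + 1) - mu j‖ / P) ≤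
    C * (N * P) ^ ε *
      (1 + ∫ τ : ℝ, k τ * ‖SX lam X (1 / 2 + ((t + τ : ℝ) : ℂ) * Complex.I)‖)

end Pool.Agent.H27.L1.H23.GB
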