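import Pool.Agent.H27.L1.H23.GB.AF1

/-!
Board gb, preparations for the approximate functional equation: the truncated sums against a cut-off.
-/

namespace Pool.Agent.H27.L1.H23.GB

open MeasureTheory Real

namespace AF

/-- the exponential function of the Mellin transform at `1/2 + i t`, in the variable `log r` -/
noncomputable def ex (σ m t x : ℝ) : ℂ := Complex.exp (((-(σ * x) : ℝ) : ℂ) +
  ((-(m * t * x) : ℝ) : ℂ) * Complex.I)

lemma ex_norm (σ m t x : ℝ) : ‖ex σ m t x‖ = Real.exp (-(σ * x)) := by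
  unfold ex
  rw [Complex.exp_add, norm_mul, Complex.norm_exp_ofReal_mul_I, mul_one, Complex.norm_exp_ofReal]

lemma ex_cont (σ m t : ℝ) : Continuous (ex σ m t) := by
  unfold ex
  fun_prop

lemma ex_add (σ m t x y : ℝ) : ex σ m t (x + y) = ex σ m t x * ex σ m t y := by
  unfold ex
  rw [← Complex.exp_add]
  congr 1
  push_cast
  ring

lemma ex_shift (σ m t ξ x : ℝ) (hm : m ≠ 0) :
    ex σ m t x * Complex.exp (2 * π * ξ * x * Complex.I) = ex σ m (t - 2 * π * ξ / m) x := by
  unfold ex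
  rw [← Complex.exp_add]
  congr 1
  have h : -(m * (t - 2 * π * ξ / m) * x) = -(m * t * x) + 2 * π * ξ * x := by
    field_simp
    ring
  rw [h]
  push_cast
  ring

/-- weighted integrability does not depend on the imaginary part -/
lemma int_ex {φ : ℝ → ℂ} {σ : ℝ} (hφ : Integrable fun x => φ x * (Real.exp (-(σ * x)) : ℂ))
    (m t : ℝ) : Integrable fun x => φ x * ex σ m t x := by
  have h1 : (fun x => φ x * ex σ m t x) = fun x =>
      Complex.exp (((-(m * t * x) : ℝ) : ℂ) * Complex.I) *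
        (φ x * (Real.exp (-(σ * x)) : ℂ)) := by
    funext x
    unfold ex
    rw [Complex.exp_add, Complex.ofReal_exp]
    ring
  rw [h1]
  refine Integrable.bdd_mul (c := 1) hφ ?_ ?_
  · exact (by fun_prop : Continuous fun x : ℝ =>
      Complex.exp (((-(m * t * x) : ℝ) : ℂ) * Complex.I)).aestronglyMeasurable
  · refine Filter.Eventually.of_forall fun x => ?_
    rw [Complex.norm_exp_ofReal_mul_I]

lemma int_ex_shift {φ : ℝ → ℂ} {σ : ℝ} (hφ : Integrable fun x => φ x * (Real.exp (-(σ * x)) : ℂ))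
    (m t l : ℝ) : Integrable (fun x => φ (x - l) * ex σ m t x) ∧
      ∫ x, φ (x - l) * ex σ m t x = ex σ m t l * ∫ x, φ x * ex σ m t x := by
  have h1 : (fun x => φ (x - l) * ex σ m t x) =
      fun x => (fun y => ex σ m t l * (φ y * ex σ m t y)) (x - l) := by
    funext x
    have h2 : ex σ m t x = ex σ m t l * ex σ m t (x - l) := by
      rw [← ex_add]
      congr 1
      ring
    simp only []
    rw [h2]
    ring
  rw [h1]
  constructor
  · exact ((int_ex hφ m t).const_mul _).comp_sub_right l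
  · rw [integral_sub_right_eq_self (fun y => ex σ m t l * (φ y * ex σ m t y)) l,
      integral_const_mul]

/-- one term -/
lemma one_term {φ : ℝ → ℂ} {σ : ℝ} (hφ : Integrable fun x => φ x * (Real.exp (-(σ * x)) : ℂ))
    {G Gh : ℝ → ℂ} {J : ℝ} (hG : Cut G Gh J) {m : ℝ} (hm : m ≠ 0) (t l : ℝ) :
    Integrable (fun x => φ (x - l) * G x * ex σ m t x) ∧
    Integrable (fun ξ => Gh ξ * (ex σ m (t - 2 * π * ξ / m) l *
      ∫ x, φ x * ex σ m (t - 2 * π * ξ / m) x)) ∧
    ∫ x, φ (x - l) * G x * ex σ m t x = ∫ ξ, Gh ξ * (ex σ m (t - 2 * π * ξ / m) l *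
      ∫ x, φ x * ex σ m (t - 2 * π * ξ / m) x) := by
  have hi := (int_ex_shift hφ m t l).1
  have hp : Integrable (fun p : ℝ × ℝ => Complex.exp (2 * π * p.2 * p.1 * Complex.I) *
      ((φ (p.1 - l) * ex σ m t p.1) * Gh p.2)) (volume.prod volume) := by
    refine Integrable.bdd_mul (c := 1) (hi.mul_prod (cut_int hG)) ?_ ?_
    · exact (by fun_prop : Continuous fun p : ℝ × ℝ =>
        Complex.exp (2 * π * p.2 * p.1 * Complex.I)).aestronglyMeasurable
    · refine Filter.Eventually.of_forall fun p => ?_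
      have : (2 * π * p.2 * p.1 * Complex.I : ℂ) = ((2 * π * p.2 * p.1 : ℝ) : ℂ) * Complex.I := by
        push_cast; ring
      rw [this, exp_norm]
  have h1 : ∀ x, φ (x - l) * G x * ex σ m t x = ∫ ξ : ℝ, Complex.exp (2 * π * ξ * x * Complex.I) *
      ((φ (x - l) * ex σ m t x) * Gh ξ) := by
    intro x
    rw [hG.eq x]
    have : φ (x - l) * (∫ ξ : ℝ, Complex.exp (2 * π * ξ * x * Complex.I) * Gh ξ) * ex σ m t x =
        (φ (x - l) * ex σ m t x) * ∫ ξ : ℝ, Complex.exp (2 * π * ξ * x * Complex.I) * Gh ξ := by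
      ring
    rw [this, ← integral_const_mul]
    refine integral_congr_ae (Filter.Eventually.of_forall fun ξ => ?_)
    simp only []
    ring
  have h2 : ∀ ξ : ℝ, ∫ x : ℝ, Complex.exp (2 * π * ξ * x * Complex.I) *
      ((φ (x - l) * ex σ m t x) * Gh ξ) = Gh ξ * (ex σ m (t - 2 * π * ξ / m) l *
        ∫ x, φ x * ex σ m (t - 2 * π * ξ / m) x) := by
    intro ξ
    rw [← (int_ex_shift hφ m (t - 2 * π * ξ / m) l).2, ← integral_const_mul]
    refine integral_congr_ae (Filter.Eventually.of_forall fun x => ?_)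
    simp only []
    rw [← ex_shift σ m t ξ x hm]
    ring
  refine ⟨?_, ?_, ?_⟩
  · have := hp.integral_prod_left
    refine this.congr (Filter.Eventually.of_forall fun x => ?_)
    exact (h1 x).symm
  · have := hp.integral_prod_right
    refine this.congr (Filter.Eventually.of_forall fun ξ => ?_)
    exact h2 ξ
  · have h3 := integral_integral_swap (f := fun x ξ : ℝ =>
      Complex.exp (2 * π * ξ * x * Complex.I) * ((φ (x - l) * ex σ m t x) * Gh ξ)) hp
    calc ∫ x, φ (x - l) * G x * ex σ m t x = ∫ x : ℝ, ∫ ξ : ℝ,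
          Complex.exp (2 * π * ξ * x * Complex.I) * ((φ (x - l) * ex σ m t x) * Gh ξ) :=
          integral_congr_ae (Filter.Eventually.of_forall h1)
      _ = _ := h3
      _ = _ := integral_congr_ae (Filter.Eventually.of_forall h2)

/-- the truncated sum against a cut-off function -/
lemma dir_bd {φ : ℝ → ℂ} {σ : ℝ} (hφ : Integrable fun x => φ x * (Real.exp (-(σ * x)) : ℂ))
    {G Gh : ℝ → ℂ} {J : ℝ} (hG : Cut G Gh J) {m : ℝ} (hm : m ≠ 0) (t M : ℝ)
    (hM : ∀ t : ℝ, ‖∫ x, φ x * ex σ m t x‖ ≤ M) (S : Finset ℕ) (a : ℕ → ℂ) (l : ℕ → ℝ) :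
    Integrable (fun x => (∑ n ∈ S, a n * φ (x - l n)) * G x * ex σ m t x) ∧
    Integrable (fun ξ => k0 ξ * ‖∑ n ∈ S, a n * ex σ m (t - 2 * π * ξ / m) (l n)‖) ∧
    ‖∫ x, (∑ n ∈ S, a n * φ (x - l n)) * G x * ex σ m t x‖ ≤
      J * M * ∫ ξ, k0 ξ * ‖∑ n ∈ S, a n * ex σ m (t - 2 * π * ξ / m) (l n)‖ := by
  have h1 : ∀ x, (∑ n ∈ S, a n * φ (x - l n)) * G x * ex σ m t x =
      ∑ n ∈ S, a n * (φ (x - l n) * G x * ex σ m t x) := by
    intro x
    rw [Finset.sum_mul, Finset.sum_mul]
    refine Finset.sum_congr rfl fun n _ => ?_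
    ring
  have hI : Integrable (fun ξ => k0 ξ * ‖∑ n ∈ S, a n * ex σ m (t - 2 * π * ξ / m) (l n)‖) := by
    refine Integrable.mul_bdd (c := ∑ n ∈ S, ‖a n‖ * Real.exp (-(σ * l n))) k0_int ?_ ?_
    · have : Continuous fun ξ : ℝ => ∑ n ∈ S, a n * ex σ m (t - 2 * π * ξ / m) (l n) := by
        unfold ex
        fun_prop
      exact this.norm.aestronglyMeasurable
    · refine Filter.Eventually.of_forall fun ξ => ?_
      rw [norm_norm]
      refine (norm_sum_le _ _).trans (Finset.sum_le_sum fun n _ => ?_)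
      rw [norm_mul, ex_norm]
  refine ⟨?_, hI, ?_⟩
  · simp only [h1]
    exact integrable_finsetSum _ fun n _ => (one_term hφ hG hm t (l n)).1.const_mul _
  · have h2 : ∫ x, (∑ n ∈ S, a n * φ (x - l n)) * G x * ex σ m t x =
        ∫ ξ, (∑ n ∈ S, a n * ex σ m (t - 2 * π * ξ / m) (l n)) *
          (Gh ξ * ∫ x, φ x * ex σ m (t - 2 * π * ξ / m) x) := by
      rw [integral_congr_ae (Filter.Eventually.of_forall h1), integral_finsetSum _
        fun n _ => (one_term hφ hG hm t (l n)).1.const_mul _]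
      have h3 : ∀ n ∈ S, ∫ x, a n * (φ (x - l n) * G x * ex σ m t x) = ∫ ξ, a n *
          (Gh ξ * (ex σ m (t - 2 * π * ξ / m) (l n) *
            ∫ x, φ x * ex σ m (t - 2 * π * ξ / m) x)) := by
        intro n _
        rw [integral_const_mul, (one_term hφ hG hm t (l n)).2.2, integral_const_mul]
      rw [Finset.sum_congr rfl h3, ← integral_finsetSum _
        fun n _ => (one_term hφ hG hm t (l n)).2.1.const_mul _]
      refine integral_congr_ae (Filter.Eventually.of_forall fun ξ => ?_)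
      simp only []
      rw [Finset.sum_mul]
      refine Finset.sum_congr rfl fun n _ => ?_
      ring
    rw [h2, ← integral_const_mul]
    refine norm_integral_le_of_norm_le (hI.const_mul _) (Filter.Eventually.of_forall fun ξ => ?_)
    rw [norm_mul, norm_mul]
    have h4 := hG.bd ξ
    have h5 := hM (t - 2 * π * ξ / m)
    have h6 : ‖Gh ξ‖ * ‖∫ x, φ x * ex σ m (t - 2 * π * ξ / m) x‖ ≤ (J * k0 ξ) * M :=
      mul_le_mul h4 h5 (norm_nonneg _) ((norm_nonneg _).trans h4)
    calc _ ≤ ‖∑ n ∈ S, a n * ex σ m (t - 2 * π * ξ / m) (l n)‖ * ((J * k0 ξ) * M) :=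
          mul_le_mul_of_nonneg_left h6 (norm_nonneg _)
      _ = _ := by ring

/-- the kernel in the variable `τ` -/
noncomputable def kk (m : ℕ) (τ : ℝ) : ℝ := m / (2 * π) * k0 (m / (2 * π) * τ)

lemma kk_krn (m : ℕ) (hm : 1 ≤ m) : Krn (kk m) := by
  have hmr : (0 : ℝ) < m := by exact_mod_cast hm
  have hc : 0 < (m : ℝ) / (2 * π) := by positivity
  refine ⟨?_, fun τ => mul_nonneg hc.le (k0_nn _), fun K => ?_⟩
  · unfold kk
    exact continuous_const.mul (k0_cont.comp (by fun_prop))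
  · obtain ⟨C, hC, h⟩ := k0_dec K
    refine ⟨m / (2 * π) * (C * (min 1 (m / (2 * π))) ^ (-(K : ℝ))), by positivity, fun τ => ?_⟩
    unfold kk
    rw [mul_assoc]
    refine mul_le_mul_of_nonneg_left ?_ hc.le
    refine (h _).trans ?_
    rw [mul_assoc]
    refine mul_le_mul_of_nonneg_left ?_ hC.le
    have hmin : 0 < min 1 ((m : ℝ) / (2 * π)) := lt_min one_pos hc
    rw [← Real.mul_rpow hmin.le (by positivity)]
    refine Real.rpow_le_rpow_of_nonpos (by positivity) ?_ (by simp)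
    rw [abs_mul, abs_of_pos hc, mul_add, mul_one]
    refine add_le_add (min_le_left _ _) ?_
    exact mul_le_mul_of_nonneg_right (min_le_right _ _) (abs_nonneg _)

lemma kk_int (m : ℕ) (hm : 1 ≤ m) (f : ℝ → ℝ) (t : ℝ) :
    ∫ ξ, k0 ξ * f (t - 2 * π * ξ / m) = ∫ τ, kk m τ * f (t + τ) := by
  have hmr : (0 : ℝ) < m := by exact_mod_cast hm
  have hpi := Real.pi_pos
  have h1 := Measure.integral_comp_mul_left (fun τ => kk m τ * f (t + τ)) (-(2 * π / m))
  have h2 : ∀ ξ : ℝ, (fun τ => kk m τ * f (t + τ)) (-(2 * π / m) * ξ) =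
      (m / (2 * π)) * (k0 ξ * f (t - 2 * π * ξ / m)) := by
    intro ξ
    simp only [kk]
    have e1 : (m : ℝ) / (2 * π) * (-(2 * π / m) * ξ) = -ξ := by
      field_simp
    have e2 : t + -(2 * π / m) * ξ = t - 2 * π * ξ / m := by
      field_simp
      ring
    rw [e1, e2, k0_neg]
    ring
  simp only [h2] at h1
  rw [integral_const_mul] at h1
  have h3 : |(-(2 * π / m))⁻¹| = (m : ℝ) / (2 * π) := by
    rw [inv_neg, abs_neg, inv_div, abs_of_pos (by positivity)]
  rw [h3, smul_eq_mul] at h1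
  exact mul_left_cancel₀ (by positivity) h1

end AF

end Pool.Agent.H27.L1.H23.GB
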