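import Pool.Agent.H27.L1.H23.GB.AF2

/-!
Board gb, preparations for the approximate functional equation: from the multiplicative to the
additive variable, size of the terms.
-/

namespace Pool.Agent.H27.L1.H23.GB

open MeasureTheory Real Pool.Agent.H27.L1.H34.GA

namespace AF

lemma ioi_exp (f : ℝ → ℂ) : ∫ r in Set.Ioi (0 : ℝ), f r = ∫ x : ℝ, (Real.exp x : ℂ) *
    f (Real.exp x) := by
  have h1 := integral_image_eq_integral_abs_deriv_smul (s := Set.univ) (f := Real.exp)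
    (f' := Real.exp) MeasurableSet.univ (fun x _ => (Real.hasDerivAt_exp x).hasDerivWithinAt)
    (Real.exp_injective.injOn) f
  rw [Set.image_univ, Real.range_exp, setIntegral_univ] at h1
  rw [h1]
  refine integral_congr_ae (Filter.Eventually.of_forall fun x => ?_)
  simp only []
  rw [abs_of_pos (Real.exp_pos x)]
  rfl

lemma mel_exp (m : ℕ) (f : ℝ → ℂ) (t : ℝ) : ∫ r in Set.Ioi (0 : ℝ), f r * ((r : ℝ) : ℂ) ^
    (-((m : ℂ) * ((1 / 2 + t * Complex.I) + ((m : ℂ) - 1) / 2)) - 1) =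
    ∫ x : ℝ, f (Real.exp x) * ex ((m : ℝ) ^ 2 / 2) m t x := by
  rw [ioi_exp]
  refine integral_congr_ae (Filter.Eventually.of_forall fun x => ?_)
  simp only []
  have h0 : ((Real.exp x : ℝ) : ℂ) ≠ 0 := by exact_mod_cast (Real.exp_pos x).ne'
  rw [Complex.cpow_sub _ _ h0, Complex.cpow_one, Complex.cpow_def_of_ne_zero h0,
    ← Complex.ofReal_log (Real.exp_pos x).le, Real.log_exp]
  have h1 : ((Real.exp x : ℝ) : ℂ) * (f (Real.exp x) * (Complex.exp ((x : ℂ) *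
      -((m : ℂ) * ((1 / 2 + t * Complex.I) + ((m : ℂ) - 1) / 2))) / ((Real.exp x : ℝ) : ℂ))) =
      f (Real.exp x) * Complex.exp ((x : ℂ) *
      -((m : ℂ) * ((1 / 2 + t * Complex.I) + ((m : ℂ) - 1) / 2))) := by
    field_simp
  rw [h1]
  unfold ex
  congr 2
  push_cast
  ring

/-- the coefficients -/
noncomputable def ac (m : ℕ) (lam : ℕ → ℂ) (n : ℕ) : ℂ := (n : ℂ) ^ (((m : ℂ) - 1) / 2) * lam n

/-- the logarithms -/
noncomputable def ll (m : ℕ) (n : ℕ) : ℝ := Real.log n / m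

lemma exp_ll {m : ℕ} (_hm : 1 ≤ m) {n : ℕ} (hn : 1 ≤ n) (x : ℝ) :
    Real.exp x * (n : ℝ) ^ (-(1 / (m : ℝ))) = Real.exp (x - ll m n) := by
  have hn0 : (0 : ℝ) < n := by exact_mod_cast hn
  rw [Real.rpow_def_of_pos hn0, ← Real.exp_add]
  congr 1
  unfold ll
  ring

lemma thA_exp {m : ℕ} (hm : 1 ≤ m) (ψ : ℝ → ℂ) (lam : ℕ → ℂ) (x : ℝ) :
    thA m ψ lam (Real.exp x) = ∑' n : ℕ, if 1 ≤ n then
      ac m lam n * ψ (Real.exp (x - ll m n)) else 0 := by
  unfold thA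
  refine tsum_congr fun n => ?_
  split_ifs with h
  · rw [exp_ll hm h]
    rfl
  · rfl

lemma sum_SX {m : ℕ} (hm : 1 ≤ m) (lam : ℕ → ℂ) (X : ℕ) (t : ℝ) :
    ∑ n ∈ Finset.Icc 1 X, ac m lam n * ex ((m : ℝ) ^ 2 / 2) m t (ll m n) =
      SX lam X (1 / 2 + (t : ℂ) * Complex.I) := by
  unfold SX
  refine Finset.sum_congr rfl fun n hn => ?_
  have hn1 : 1 ≤ n := (Finset.mem_Icc.1 hn).1
  have hn0 : (0 : ℝ) < n := by exact_mod_cast hn1
  have hnc : (n : ℂ) ≠ 0 := by exact_mod_cast hn0.ne'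
  have hmr : (m : ℝ) ≠ 0 := by
    have : (0 : ℝ) < m := by exact_mod_cast hm
    exact this.ne'
  unfold ac ex ll
  have h1 : (((-((m : ℝ) ^ 2 / 2 * (Real.log n / m)) : ℝ) : ℂ) +
      ((-(m * t * (Real.log n / m)) : ℝ) : ℂ) * Complex.I) =
      Complex.log n * (-((m : ℂ) / 2 + t * Complex.I)) := by
    have e1 : (m : ℝ) ^ 2 / 2 * (Real.log n / m) = Real.log n * (m / 2) := by
      field_simp
    have e2 : m * t * (Real.log n / m) = Real.log n * t := by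
      field_simp
    rw [e1, e2, ← Complex.natCast_log]
    push_cast
    ring
  rw [h1, ← Complex.cpow_def_of_ne_zero hnc]
  have h2 : (n : ℂ) ^ (-(1 / 2 + (t : ℂ) * Complex.I)) =
      (n : ℂ) ^ (((m : ℂ) - 1) / 2) * (n : ℂ) ^ (-((m : ℂ) / 2 + t * Complex.I)) := by
    rw [← Complex.cpow_add _ _ hnc]
    congr 1
    ring
  rw [h2]
  ring

/-- one term of the dual sum -/
lemma term_bd {m : ℕ} (hm : 1 ≤ m) (K1 : ℕ) {B M d : ℝ} (hB : 0 < B) (hM : 0 ≤ M) (hd : 0 < d)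
    {lam : ℕ → ℂ} {ψ' : ℝ → ℂ}
    (h1 : ∀ r : ℝ, 0 < r → ‖ψ' r‖ ≤ M * min 1 ((r / d) ^ (m * (m + 2 + K1))))
    (h2 : ∀ n : ℕ, 1 ≤ n → ‖(n : ℂ) ^ (((m : ℂ) - 1) / 2) * lam n‖ ≤ B * (n : ℝ) ^ m)
    {n : ℕ} (hn : 1 ≤ n) (y : ℝ) :
    ‖ac m lam n * ψ' (Real.exp (y - ll m n))‖ ≤
      B * M * (Real.exp y / d) ^ (m * (m + 2 + K1)) * (((n : ℝ) ^ 2)⁻¹ * ((n : ℝ) ^ K1)⁻¹) := by
  have hn0 : (0 : ℝ) < n := by exact_mod_cast hn
  have hm0 : (m : ℝ) ≠ 0 := by
    have : (0 : ℝ) < m := by exact_mod_cast hm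
    exact this.ne'
  rw [norm_mul]
  have h3 := h1 (Real.exp (y - ll m n)) (Real.exp_pos _)
  have h4 : Real.exp (y - ll m n) / d = Real.exp y / d * Real.exp (-(ll m n)) := by
    rw [sub_eq_add_neg, Real.exp_add]
    ring
  have h5 : (Real.exp (-(ll m n))) ^ (m * (m + 2 + K1)) = ((n : ℝ) ^ (m + 2 + K1))⁻¹ := by
    rw [← Real.exp_nat_mul]
    have : ((m * (m + 2 + K1) : ℕ) : ℝ) * -(ll m n) = -(((m + 2 + K1 : ℕ) : ℝ) * Real.log n) := by
      unfold ll
      push_cast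
      field_simp
    rw [this, Real.exp_neg, Real.exp_nat_mul, Real.exp_log hn0]
  have h6 : ‖ψ' (Real.exp (y - ll m n))‖ ≤
      M * ((Real.exp y / d) ^ (m * (m + 2 + K1)) * ((n : ℝ) ^ (m + 2 + K1))⁻¹) := by
    refine h3.trans (mul_le_mul_of_nonneg_left ((min_le_right _ _).trans ?_) hM)
    rw [h4, mul_pow, h5]
  calc ‖ac m lam n‖ * ‖ψ' (Real.exp (y - ll m n))‖ ≤ (B * (n : ℝ) ^ m) *
        (M * ((Real.exp y / d) ^ (m * (m + 2 + K1)) * ((n : ℝ) ^ (m + 2 + K1))⁻¹)) :=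
        mul_le_mul (h2 n hn) h6 (norm_nonneg _) (by positivity)
    _ = _ := by
      have : ((n : ℝ) ^ (m + 2 + K1))⁻¹ = ((n : ℝ) ^ m)⁻¹ * (((n : ℝ) ^ 2)⁻¹ * ((n : ℝ) ^ K1)⁻¹) := by
        rw [pow_add, pow_add, mul_inv, mul_inv]
        ring
      rw [this]
      field_simp

/-- the constant `∑ 1 / n²` -/
noncomputable def S0 : ℝ := ∑' n : ℕ, ((n : ℝ) ^ 2)⁻¹

lemma S0_sum : HasSum (fun n : ℕ => ((n : ℝ) ^ 2)⁻¹) S0 :=
  (Real.summable_nat_pow_inv.2 (by norm_num)).hasSum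

lemma S0_nn : 0 ≤ S0 := tsum_nonneg fun n => by positivity

/-- the dual sum and its finite part -/
lemma dual_bd {m : ℕ} (hm : 1 ≤ m) (K1 : ℕ) {B M d : ℝ} (hB : 0 < B) (hM : 0 ≤ M) (hd : 0 < d)
    {lam : ℕ → ℂ} {ψ' : ℝ → ℂ}
    (h1 : ∀ r : ℝ, 0 < r → ‖ψ' r‖ ≤ M * min 1 ((r / d) ^ (m * (m + 2 + K1))))
    (h2 : ∀ n : ℕ, 1 ≤ n → ‖(n : ℂ) ^ (((m : ℂ) - 1) / 2) * lam n‖ ≤ B * (n : ℝ) ^ m)
    (X : ℕ) (hX : 1 ≤ X) (y : ℝ) :
    ‖∑ n ∈ Finset.Icc 1 X, ac m lam n * ψ' (Real.exp (y - ll m n))‖ ≤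
      B * M * (Real.exp y / d) ^ (m * (m + 2 + K1)) * S0 ∧
    ‖thA m ψ' lam (Real.exp y) - ∑ n ∈ Finset.Icc 1 X, ac m lam n * ψ' (Real.exp (y - ll m n))‖ ≤
      B * M * (Real.exp y / d) ^ (m * (m + 2 + K1)) * ((X : ℝ) ^ K1)⁻¹ * S0 := by
  set A : ℝ := B * M * (Real.exp y / d) ^ (m * (m + 2 + K1)) with hA
  have hA0 : 0 ≤ A := by
    have := Real.exp_pos y
    positivity
  have hX0 : (0 : ℝ) < X := by exact_mod_cast hX
  set f : ℕ → ℂ := fun n => if 1 ≤ n then ac m lam n * ψ' (Real.exp (y - ll m n)) else 0 with hf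
  have hft : ∀ n : ℕ, ‖f n‖ ≤ A * ((n : ℝ) ^ 2)⁻¹ := by
    intro n
    simp only [hf]
    split_ifs with h
    · refine (term_bd hm K1 hB hM hd h1 h2 h y).trans ?_
      rw [← hA]
      refine mul_le_mul_of_nonneg_left ?_ hA0
      have h3 : ((n : ℝ) ^ K1)⁻¹ ≤ 1 := by
        refine inv_le_one_of_one_le₀ (one_le_pow₀ ?_)
        exact_mod_cast h
      have h4 : 0 ≤ ((n : ℝ) ^ 2)⁻¹ := by positivity
      nlinarith
    · rw [norm_zero]
      positivity
  have hsum : Summable f := Summable.of_norm_bounded (S0_sum.summable.mul_left A) hft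
  have hfin : ∑ n ∈ Finset.Icc 1 X, ac m lam n * ψ' (Real.exp (y - ll m n)) =
      ∑ n ∈ Finset.Icc 1 X, f n := by
    refine Finset.sum_congr rfl fun n hn => ?_
    simp only [hf]
    rw [if_pos (Finset.mem_Icc.1 hn).1]
  constructor
  · rw [hfin]
    refine (norm_sum_le _ _).trans ?_
    calc ∑ n ∈ Finset.Icc 1 X, ‖f n‖ ≤ ∑ n ∈ Finset.Icc 1 X, A * ((n : ℝ) ^ 2)⁻¹ :=
          Finset.sum_le_sum fun n _ => hft n
      _ ≤ ∑' n : ℕ, A * ((n : ℝ) ^ 2)⁻¹ :=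
          (S0_sum.summable.mul_left A).sum_le_tsum _ fun n _ => by positivity
      _ = A * S0 := by rw [tsum_mul_left]; rfl
  · rw [hfin, thA_exp hm]
    have h5 : ∑ n ∈ Finset.Icc 1 X, f n = ∑' n : ℕ, if n ∈ Finset.Icc 1 X then f n else 0 := by
      rw [tsum_eq_sum (s := Finset.Icc 1 X)]
      · exact Finset.sum_congr rfl fun n hn => (if_pos hn).symm
      · intro n hn
        exact if_neg hn
    have h6 : Summable fun n : ℕ => if n ∈ Finset.Icc 1 X then f n else 0 :=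
      summable_of_ne_finset_zero (s := Finset.Icc 1 X) fun n hn => if_neg hn
    rw [h5]
    show ‖(∑' n : ℕ, f n) - ∑' n : ℕ, (if n ∈ Finset.Icc 1 X then f n else 0)‖ ≤ _
    rw [← Summable.tsum_sub hsum h6]
    refine tsum_of_norm_bounded ((S0_sum.mul_left (A * ((X : ℝ) ^ K1)⁻¹))) fun n => ?_
    split_ifs with h
    · rw [sub_self, norm_zero]
      positivity
    · rw [sub_zero]
      simp only [hf]
      split_ifs with h7
      · have h8 : X < n := by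
          by_contra h9
          exact h (Finset.mem_Icc.2 ⟨h7, not_lt.1 h9⟩)
        refine (term_bd hm K1 hB hM hd h1 h2 h7 y).trans ?_
        rw [← hA, mul_assoc A]
        refine mul_le_mul_of_nonneg_left ?_ hA0
        rw [mul_comm]
        refine mul_le_mul_of_nonneg_right ?_ (by positivity)
        refine inv_anti₀ (by positivity) (pow_le_pow_left₀ hX0.le ?_ K1)
        exact_mod_cast h8.le
      · rw [norm_zero]
        positivity

/-- integrability of the dual weight -/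
lemma dual_int {m : ℕ} (hm : 1 ≤ m) {K : ℕ} (hK : m * m ≤ K) {M d : ℝ} (hM : 0 ≤ M) (_hd : 0 < d)
    {ψ' : ℝ → ℂ} (hc : ContinuousOn ψ' (Set.Ioi 0))
    (h1 : ∀ r : ℝ, 0 < r → ‖ψ' r‖ ≤ M * min 1 ((r / d) ^ K)) :
    Integrable fun x => ψ' (Real.exp x) * (Real.exp (-((m : ℝ) ^ 2 / 2 * x)) : ℂ) := by
  have hmr : (1 : ℝ) ≤ m := by exact_mod_cast hm
  have hK' : (m : ℝ) * m ≤ K := by exact_mod_cast hK
  have hcont : Continuous fun x => ψ' (Real.exp x) :=
    hc.comp_continuous Real.continuous_exp fun x => Real.exp_pos x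
  have hσ : 0 < (m : ℝ) ^ 2 / 2 := by positivity
  have hKσ : 0 < (K : ℝ) - (m : ℝ) ^ 2 / 2 := by nlinarith
  have hmeas : AEStronglyMeasurable
      (fun x => ψ' (Real.exp x) * (Real.exp (-((m : ℝ) ^ 2 / 2 * x)) : ℂ)) volume := by
    refine (hcont.mul ?_).aestronglyMeasurable
    fun_prop
  have hn : ∀ x, ‖ψ' (Real.exp x) * (Real.exp (-((m : ℝ) ^ 2 / 2 * x)) : ℂ)‖ =
      ‖ψ' (Real.exp x)‖ * Real.exp (-((m : ℝ) ^ 2 / 2 * x)) := by
    intro x
    rw [norm_mul, Complex.norm_real, Real.norm_of_nonneg (Real.exp_pos _).le]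
  rw [← integrableOn_univ, ← Set.Iic_union_Ioi (a := (0 : ℝ)), integrableOn_union]
  constructor
  · refine Integrable.mono' ((integrableOn_exp_mul_Iic hKσ 0).const_mul (M * d⁻¹ ^ K))
      hmeas.restrict (Filter.Eventually.of_forall fun x => ?_)
    rw [hn]
    have h2 := (h1 (Real.exp x) (Real.exp_pos x)).trans
      (mul_le_mul_of_nonneg_left (min_le_right _ _) hM)
    calc ‖ψ' (Real.exp x)‖ * Real.exp (-((m : ℝ) ^ 2 / 2 * x)) ≤
          (M * (Real.exp x / d) ^ K) * Real.exp (-((m : ℝ) ^ 2 / 2 * x)) :=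
          mul_le_mul_of_nonneg_right h2 (Real.exp_pos _).le
      _ = M * d⁻¹ ^ K * (Real.exp x ^ K * Real.exp (-((m : ℝ) ^ 2 / 2 * x))) := by
          rw [div_eq_mul_inv, mul_pow]; ring
      _ = _ := by
          rw [← Real.exp_nat_mul, ← Real.exp_add]
          congr 2
          ring
  · refine Integrable.mono' ((integrableOn_exp_mul_Ioi (by linarith : -((m : ℝ) ^ 2 / 2) < 0)
      0).const_mul M) hmeas.restrict (Filter.Eventually.of_forall fun x => ?_)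
    rw [hn]
    have h2 := (h1 (Real.exp x) (Real.exp_pos x)).trans
      (mul_le_mul_of_nonneg_left (min_le_left _ _) hM)
    rw [mul_one] at h2
    have h3 : -((m : ℝ) ^ 2 / 2) * x = -((m : ℝ) ^ 2 / 2 * x) := by ring
    rw [h3]
    exact mul_le_mul_of_nonneg_right h2 (Real.exp_pos _).le

/-- integrability of the direct weight -/
lemma direct_int {m : ℕ} {r0 : ℝ} (hr0 : 1 ≤ r0) {ψ : ℝ → ℂ} (hc : ContinuousOn ψ (Set.Ioi 0))
    (h1 : ∀ r : ℝ, 0 < r → ψ r ≠ 0 → r0⁻¹ ≤ r ∧ r ≤ r0) :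
    Integrable fun x => ψ (Real.exp x) * (Real.exp (-((m : ℝ) ^ 2 / 2 * x)) : ℂ) := by
  have hr : 0 < r0 := by linarith
  have hcont : Continuous fun x => ψ (Real.exp x) * (Real.exp (-((m : ℝ) ^ 2 / 2 * x)) : ℂ) :=
    (hc.comp_continuous Real.continuous_exp fun x => Real.exp_pos x).mul (by fun_prop)
  refine hcont.integrable_of_hasCompactSupport ?_
  refine HasCompactSupport.of_support_subset_isCompact
    (K := Set.Icc (-(Real.log r0)) (Real.log r0)) isCompact_Icc ?_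
  intro x hx
  rw [Function.mem_support] at hx
  have hx' : ψ (Real.exp x) ≠ 0 := left_ne_zero_of_mul hx
  obtain ⟨h2, h3⟩ := h1 _ (Real.exp_pos x) hx'
  constructor
  · rw [← Real.log_inv]
    exact (Real.log_le_iff_le_exp (by positivity)).2 h2
  · exact (Real.le_log_iff_exp_le hr).2 h3

/-- the direct sum is finite -/
lemma direct_fin {m : ℕ} (hm : 1 ≤ m) {r0 : ℝ} (hr0 : 1 ≤ r0) {ψ : ℝ → ℂ}
    (h1 : ∀ r : ℝ, 0 < r → ψ r ≠ 0 → r0⁻¹ ≤ r ∧ r ≤ r0) (lam : ℕ → ℂ) :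
    (∀ x : ℝ, x < -(Real.log r0) → thA m ψ lam (Real.exp x) = 0) ∧
    ∀ (X : ℕ) (z : ℝ), Real.exp (m * (z + Real.log r0)) ≤ X → ∀ x : ℝ, x ≤ z →
      thA m ψ lam (Real.exp x) = ∑ n ∈ Finset.Icc 1 X, ac m lam n * ψ (Real.exp (x - ll m n)) := by
  have hr : 0 < r0 := by linarith
  have hmr : (0 : ℝ) < m := by exact_mod_cast hm
  have key : ∀ (n : ℕ) (x : ℝ), 1 ≤ n → ψ (Real.exp (x - ll m n)) ≠ 0 →
      ll m n ≤ x + Real.log r0 := by
    intro n x _ hx
    obtain ⟨h2, -⟩ := h1 _ (Real.exp_pos _) hx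
    have h3 := (Real.log_le_iff_le_exp (by positivity)).2 h2
    rw [Real.log_inv] at h3
    linarith
  constructor
  · intro x hx
    rw [thA_exp hm]
    have h2 : ∀ n : ℕ, (if 1 ≤ n then ac m lam n * ψ (Real.exp (x - ll m n)) else 0) = 0 := by
      intro n
      split_ifs with h
      · by_cases h3 : ψ (Real.exp (x - ll m n)) = 0
        · rw [h3, mul_zero]
        · exfalso
          have h4 := key n x h h3
          have h5 : 0 ≤ ll m n := div_nonneg (Real.log_natCast_nonneg n) hmr.le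
          linarith
      · rfl
    simp only [h2, tsum_zero]
  · intro X z hX x hx
    rw [thA_exp hm, tsum_eq_sum (s := Finset.Icc 1 X)]
    · refine Finset.sum_congr rfl fun n hn => ?_
      rw [if_pos (Finset.mem_Icc.1 hn).1]
    · intro n hn
      split_ifs with h
      · by_cases h3 : ψ (Real.exp (x - ll m n)) = 0
        · rw [h3, mul_zero]
        · exfalso
          apply hn
          rw [Finset.mem_Icc]
          refine ⟨h, ?_⟩
          have h4 := key n x h h3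
          have hn0 : (0 : ℝ) < n := by exact_mod_cast h
          have h5 : Real.log n ≤ m * (z + Real.log r0) := by
            have h6 : ll m n ≤ z + Real.log r0 := by linarith
            unfold ll at h6
            rw [div_le_iff₀ hmr] at h6
            linarith
          have h7 := (Real.log_le_iff_le_exp hn0).1 h5
          exact_mod_cast h7.trans hX
      · rfl

end AF

end Pool.Agent.H27.L1.H23.GB
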