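import Pool.Agent.H27.L1.H23.GB.AF3

/-!
Board gb, preparations for the approximate functional equation: the dual integral.
-/

namespace Pool.Agent.H27.L1.H23.GB

open MeasureTheory Real Pool.Agent.H27.L1.H34.GA

namespace AF

/-- integral of the majorant of the dual error -/
lemma maj_int {k A1 A2 c1 c2 : ℝ} (hk : 0 < k) :
    Integrable (fun y : ℝ => (Set.Iic c1).indicator (fun y => A1 * Real.exp (k * y)) y +
      (Set.Iic c2).indicator (fun y => A2 * Real.exp (k * y)) y) ∧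
    ∫ y : ℝ, ((Set.Iic c1).indicator (fun y => A1 * Real.exp (k * y)) y +
      (Set.Iic c2).indicator (fun y => A2 * Real.exp (k * y)) y) =
      (A1 * Real.exp (k * c1) + A2 * Real.exp (k * c2)) / k := by
  have h1 : ∀ A c : ℝ, Integrable ((Set.Iic c).indicator (fun y => A * Real.exp (k * y))) := by
    intro A c
    exact (integrable_indicator_iff measurableSet_Iic).2
      ((integrableOn_exp_mul_Iic hk c).const_mul A)
  have h2 : ∀ A c : ℝ, ∫ y : ℝ, (Set.Iic c).indicator (fun y => A * Real.exp (k * y)) y =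
      A * Real.exp (k * c) / k := by
    intro A c
    rw [integral_indicator measurableSet_Iic, integral_const_mul, integral_exp_mul_Iic hk]
    ring
  refine ⟨(h1 A1 c1).add (h1 A2 c2), ?_⟩
  rw [integral_add (h1 A1 c1) (h1 A2 c2), h2, h2]
  ring

/-- the dual integral -/
lemma dual_part {m : ℕ} (hm : 1 ≤ m) (K1 J : ℕ) {B M d c : ℝ} (hB : 0 < B) (hM : 0 ≤ M)
    (hd : 0 < d) {lam : ℕ → ℂ} {ψ' : ℝ → ℂ} (hc : ContinuousOn ψ' (Set.Ioi 0))
    (h1 : ∀ r : ℝ, 0 < r → ‖ψ' r‖ ≤ M * min 1 ((r / d) ^ (m * (m + 2 + K1))))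
    (h2 : ∀ n : ℕ, 1 ≤ n → ‖(n : ℂ) ^ (((m : ℂ) - 1) / 2) * lam n‖ ≤ B * (n : ℝ) ^ m)
    (h3 : ∀ t : ℝ, ‖∫ x, ψ' (Real.exp x) * ex ((m : ℝ) ^ 2 / 2) m t x‖ ≤ M)
    (X : ℕ) (hX : 1 ≤ X) (t : ℝ)
    (hD : Integrable fun y => thA m ψ' lam (Real.exp y) * ((gs (c - y) : ℝ) : ℂ) *
      ex ((m : ℝ) ^ 2 / 2) m t y) :
    ‖∫ y, thA m ψ' lam (Real.exp y) * ((gs (c - y) : ℝ) : ℂ) * ex ((m : ℝ) ^ 2 / 2) m t y‖ ≤
      J * M * (∫ τ : ℝ, kk m τ * ‖SX lam X (1 / 2 + ((t + τ : ℝ) : ℂ) * Complex.I)‖) +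
      B * M * S0 * (d⁻¹ ^ (m * (m + 2 + K1)) * ((X : ℝ) ^ K1)⁻¹ *
        Real.exp ((((m * (m + 2 + K1) : ℕ) : ℝ) - (m : ℝ) ^ 2 / 2) * c) +
        d⁻¹ ^ (m * (m + 2 + K1)) *
        Real.exp ((((m * (m + 2 + K1) : ℕ) : ℝ) - (m : ℝ) ^ 2 / 2) * (c - J))) := by
  have hmr : (1 : ℝ) ≤ m := by exact_mod_cast hm
  have hm0 : (m : ℝ) ≠ 0 := by positivity
  set σ : ℝ := (m : ℝ) ^ 2 / 2 with hσ
  set K : ℕ := m * (m + 2 + K1) with hK
  have hKr : (K : ℝ) = m * (m + 2 + K1) := by rw [hK]; push_cast; ring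
  have hK1r : (0 : ℝ) ≤ K1 := Nat.cast_nonneg K1
  have hKσ : 1 ≤ (K : ℝ) - σ := by
    rw [hKr, hσ]
    nlinarith [mul_nonneg (by linarith : (0 : ℝ) ≤ m) hK1r]
  obtain ⟨Gh, hG⟩ := cut2 c J
  have hφ : Integrable fun x => ψ' (Real.exp x) * (Real.exp (-(σ * x)) : ℂ) :=
    dual_int hm (by rw [hK]; exact Nat.mul_le_mul_left m (by omega)) hM hd hc h1
  obtain ⟨hi1, -, hb1⟩ := dir_bd hφ hG hm0 t M h3 (Finset.Icc 1 X) (ac m lam) (ll m)
  have hsx : ∀ t : ℝ, ∑ n ∈ Finset.Icc 1 X, ac m lam n * ex σ m t (ll m n) =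
      SX lam X (1 / 2 + (t : ℂ) * Complex.I) := fun t => sum_SX hm lam X t
  simp only [hsx] at hb1
  have hkk := kk_int m hm (fun u => ‖SX lam X (1 / 2 + (u : ℂ) * Complex.I)‖) t
  rw [hkk] at hb1
  set D1 : ℝ → ℂ := fun y => (∑ n ∈ Finset.Icc 1 X, ac m lam n * ψ' (Real.exp (y - ll m n))) *
    ((gs (c - y) - gs (c - y - J) : ℝ) : ℂ) * ex σ m t y with hD1
  set D : ℝ → ℂ := fun y => thA m ψ' lam (Real.exp y) * ((gs (c - y) : ℝ) : ℂ) * ex σ m t y
    with hDd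
  have hsplit : ∫ y, D y = (∫ y, D1 y) + ∫ y, (D y - D1 y) := by
    rw [integral_sub hD hi1]
    ring
  rw [hsplit]
  refine (norm_add_le _ _).trans (add_le_add hb1 ?_)
  set A : ℝ := B * M * d⁻¹ ^ K * S0 with hA
  have hS := S0_nn
  have hA0 : 0 ≤ A := by positivity
  obtain ⟨hmi, hme⟩ := maj_int (k := (K : ℝ) - σ) (A1 := A * ((X : ℝ) ^ K1)⁻¹) (A2 := A)
    (c1 := c) (c2 := c - J) (by linarith)
  have hpt : ∀ y, ‖D y - D1 y‖ ≤
      (Set.Iic c).indicator (fun y => A * ((X : ℝ) ^ K1)⁻¹ * Real.exp (((K : ℝ) - σ) * y)) y +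
      (Set.Iic (c - J)).indicator (fun y => A * Real.exp (((K : ℝ) - σ) * y)) y := by
    intro y
    obtain ⟨hs1, hs2⟩ := dual_bd hm K1 hB hM hd h1 h2 X hX y
    set Sm := ∑ n ∈ Finset.Icc 1 X, ac m lam n * ψ' (Real.exp (y - ll m n)) with hSm
    have he : D y - D1 y = ((thA m ψ' lam (Real.exp y) - Sm) * ((gs (c - y) : ℝ) : ℂ) +
        Sm * ((gs (c - y - J) : ℝ) : ℂ)) * ex σ m t y := by
      simp only [hDd, hD1]
      rw [← hSm]
      push_cast
      ring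
    rw [he, norm_mul, ex_norm]
    have hE : (Real.exp y / d) ^ K = d⁻¹ ^ K * Real.exp (K * y) := by
      rw [div_eq_mul_inv, mul_pow, ← Real.exp_nat_mul]
      ring
    have hexp : Real.exp (((K : ℝ) - σ) * y) = Real.exp (K * y) * Real.exp (-(σ * y)) := by
      rw [← Real.exp_add]
      congr 1
      ring
    have hp1 : ‖(thA m ψ' lam (Real.exp y) - Sm) * ((gs (c - y) : ℝ) : ℂ)‖ *
        Real.exp (-(σ * y)) ≤ (Set.Iic c).indicator
          (fun y => A * ((X : ℝ) ^ K1)⁻¹ * Real.exp (((K : ℝ) - σ) * y)) y := by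
      rw [norm_mul, Complex.norm_real, Real.norm_of_nonneg (gs_nn _)]
      by_cases hy : y ≤ c
      · rw [Set.indicator_of_mem (by exact hy)]
        calc ‖thA m ψ' lam (Real.exp y) - Sm‖ * gs (c - y) * Real.exp (-(σ * y)) ≤
              (B * M * (Real.exp y / d) ^ K * ((X : ℝ) ^ K1)⁻¹ * S0) * 1 *
                Real.exp (-(σ * y)) := by
              refine mul_le_mul_of_nonneg_right ?_ (Real.exp_pos _).le
              exact mul_le_mul hs2 (gs_le _) (gs_nn _) ((norm_nonneg _).trans hs2)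
          _ = _ := by rw [hE, hexp, hA]; ring
      · rw [Set.indicator_of_notMem (by exact hy), gs_zero (by linarith)]
        simp
    have hp2 : ‖Sm * ((gs (c - y - J) : ℝ) : ℂ)‖ *
        Real.exp (-(σ * y)) ≤ (Set.Iic (c - J)).indicator
          (fun y => A * Real.exp (((K : ℝ) - σ) * y)) y := by
      rw [norm_mul, Complex.norm_real, Real.norm_of_nonneg (gs_nn _)]
      by_cases hy : y ≤ c - J
      · rw [Set.indicator_of_mem (by exact hy)]
        calc ‖Sm‖ * gs (c - y - J) * Real.exp (-(σ * y)) ≤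
              (B * M * (Real.exp y / d) ^ K * S0) * 1 * Real.exp (-(σ * y)) := by
              refine mul_le_mul_of_nonneg_right ?_ (Real.exp_pos _).le
              exact mul_le_mul hs1 (gs_le _) (gs_nn _) ((norm_nonneg _).trans hs1)
          _ = _ := by rw [hE, hexp, hA]; ring
      · rw [Set.indicator_of_notMem (by exact hy), gs_zero (by linarith)]
        simp
    calc _ ≤ (‖(thA m ψ' lam (Real.exp y) - Sm) * ((gs (c - y) : ℝ) : ℂ)‖ +
          ‖Sm * ((gs (c - y - J) : ℝ) : ℂ)‖) * Real.exp (-(σ * y)) :=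
          mul_le_mul_of_nonneg_right (norm_add_le _ _) (Real.exp_pos _).le
      _ = _ := add_mul _ _ _
      _ ≤ _ := add_le_add hp1 hp2
  refine (norm_integral_le_of_norm_le hmi (Filter.Eventually.of_forall hpt)).trans ?_
  rw [hme]
  refine (div_le_self (by positivity) hKσ).trans (le_of_eq ?_)
  rw [hA]
  ring

end AF

end Pool.Agent.H27.L1.H23.GB
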